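import Pool.Agent.W282.EZ.Stm

set_option autoImplicit false

namespace Pool.Agent.W366.EZ

open Pool.Agent.W282.EZ
open WeierstrassCurve.Affine

variable {K : Type} [Field K] {A B : K}

lemma isX_iff (S : (cv A B).Point) (X Z : K) :
    IsX S X Z ↔ ∃ a : K, a ≠ 0 ∧ X = a * S.xRep 0 ∧ Z = a * S.xRep 1 := by
  unfold IsX
  rcases S with _ | ⟨x, y, h⟩
  · change (X ≠ 0 ∨ Z ≠ 0) ∧ X * (0 : (cv A B).Point).xRep 1 = Z * (0 : (cv A B).Point).xRep 0 ↔
      ∃ a : K, a ≠ 0 ∧ X = a * (0 : (cv A B).Point).xRep 0 ∧ Z = a * (0 : (cv A B).Point).xRep 1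
    rw [Point.xRep_zero]
    simp only [Matrix.cons_val_one, Matrix.cons_val_zero, mul_zero, mul_one]
    constructor
    · rintro ⟨h1, h2⟩
      have hZ : Z = 0 := h2.symm
      refine ⟨X, ?_, rfl, hZ⟩
      rcases h1 with h1 | h1
      · exact h1
      · exact absurd hZ h1
    · rintro ⟨a, ha, h1, h2⟩
      exact ⟨Or.inl (by rw [h1]; exact ha), h2.symm⟩
  · rw [Point.xRep_some]
    simp only [Matrix.cons_val_one, Matrix.cons_val_zero, mul_one]
    constructor
    · rintro ⟨h1, h2⟩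
      refine ⟨Z, ?_, h2, rfl⟩
      intro hZ
      rw [hZ, zero_mul] at h2
      rcases h1 with h1 | h1
      · exact h1 h2
      · exact h1 hZ
    · rintro ⟨a, ha, h1, h2⟩
      refine ⟨Or.inr (by rw [h2]; exact ha), ?_⟩
      rw [h1, h2]

lemma c2_scale (A B a U V b U' V' : K) :
    c2 A B (a * U) (a * V) (b * U') (b * V') = a ^ 2 * b ^ 2 * c2 A B U V U' V' := by
  unfold c2; ring

lemma c1_scale (A B a U V b U' V' : K) :
    c1 A B (a * U) (a * V) (b * U') (b * V') = a ^ 2 * b ^ 2 * c1 A B U V U' V' := by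
  unfold c1; ring

lemma c0_scale (a U V b U' V' : K) :
    c0 (a * U) (a * V) (b * U') (b * V') = a ^ 2 * b ^ 2 * c0 U V U' V' := by
  unfold c0; ring

theorem mult (hadd : S_ADDSUB) : S_MULT := by
  intro K _ _ _ A B hAB x y h m
  set P0 : (cv A B).Point := WeierstrassCurve.Affine.Point.some x y h with hP0
  induction m using Nat.strong_induction_on with
  | _ m ih =>
    rcases Nat.lt_or_ge m 2 with hm | hm
    · interval_cases m
      · rw [mulXZ_zero, zero_smul, isX_iff, Point.xRep_zero]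
        exact ⟨1, one_ne_zero, by simp, by simp⟩
      · rw [mulXZ_one, one_smul, isX_iff, hP0, Point.xRep_some]
        exact ⟨1, one_ne_zero, by simp, by simp⟩
    · rcases Nat.even_or_odd' m with ⟨k, rfl | rfl⟩
      · rw [mulXZ_even _ _ _ (by omega)]
        obtain ⟨a, ha, hX, hZ⟩ := (isX_iff _ _ _).1 (ih k (by omega))
        obtain ⟨c, hc, e2, e1, e0⟩ := hadd K A B hAB (k • P0) (k • P0)
        rw [sub_self, Point.xRep_zero] at e2 e1
        have hpp : k • P0 + k • P0 = (2 * k) • P0 := by rw [← add_smul, two_mul]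
        rw [hpp] at e2 e1
        simp only [Matrix.cons_val_one, Matrix.cons_val_zero, mul_one, mul_zero, zero_add] at e2 e1
        rw [isX_iff]
        refine ⟨a ^ 2 * a ^ 2 * c, mul_ne_zero (mul_ne_zero (pow_ne_zero 2 ha) (pow_ne_zero 2 ha)) hc, ?_, ?_⟩
        · change c2 A B _ _ _ _ = _
          rw [hX, hZ, c2_scale, e2]; ring
        · change c1 A B _ _ _ _ = _
          rw [hX, hZ, c1_scale, e1]; ring
      · rw [mulXZ_odd _ _ _ (by omega)]
        obtain ⟨a, ha, hX, hZ⟩ := (isX_iff _ _ _).1 (ih k (by omega))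
        obtain ⟨b, hb, hX', hZ'⟩ := (isX_iff _ _ _).1 (ih (k + 1) (by omega))
        obtain ⟨c, hc, e2, e1, e0⟩ := hadd K A B hAB (k • P0) ((k + 1) • P0)
        have hpp : k • P0 + (k + 1) • P0 = (2 * k + 1) • P0 := by
          rw [← add_smul]
          congr 1
          ring
        have hmm : k • P0 - (k + 1) • P0 = -P0 := by
          rw [add_smul, one_smul]
          abel
        rw [hpp, hmm, Point.xRep_neg, hP0, Point.xRep_some, ← hP0] at e1 e0
        simp only [Matrix.cons_val_one, Matrix.cons_val_zero, mul_one] at e1 e0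
        rw [isX_iff]
        refine ⟨a ^ 2 * b ^ 2 * c, mul_ne_zero (mul_ne_zero (pow_ne_zero 2 ha) (pow_ne_zero 2 hb)) hc, ?_, ?_⟩
        · change c1 A B _ _ _ _ - x * c0 _ _ _ _ = _
          rw [hX, hZ, hX', hZ', c1_scale, c0_scale, e1, e0]; ring
        · change c0 _ _ _ _ = _
          rw [hX, hZ, hX', hZ', c0_scale, e0]; ring

end Pool.Agent.W366.EZ
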